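import Mathlib
import Pool.Agent.Lib.MP_405d56_lc.O.Ext
import Pool.Agent.Lib.MP_405d56_lc.B.Final

/-! # From bounded degree to regular Borel graphs, and transfer of the finiteness condition -/

set_option autoImplicit false

namespace MP405I

open Set MeasureTheory

/-- the enumeration of the neighbours of one vertex in increasing order -/
theorem enum_at {X : Type} (G : SimpleGraph X) (m : ℕ) (φ : X → ℝ)
    (hφ : Function.Injective φ) (x : X) (hx : (G.neighborSet x).encard = (m : ℕ∞)) :
    ∃ y : Fin m → X, ((∀ i, G.Adj x (y i)) ∧ StrictMono (fun i => φ (y i))) ∧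
      ∀ y' : Fin m → X, (∀ i, G.Adj x (y' i)) → StrictMono (fun i => φ (y' i)) → y' = y := by
  classical
  have hfin : (G.neighborSet x).Finite := Set.finite_of_encard_eq_coe hx
  let s : Finset ℝ := hfin.toFinset.image φ
  have hs : s.card = m := by
    show (hfin.toFinset.image φ).card = m
    rw [Finset.card_image_of_injective _ hφ]
    have h1 := hx
    rw [hfin.encard_eq_coe_toFinset_card] at h1
    exact_mod_cast h1
  have hmem : ∀ i : Fin m, ∃ z, G.Adj x z ∧ φ z = s.orderEmbOfFin hs i := by
    intro i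
    have h1 := s.orderEmbOfFin_mem hs i
    obtain ⟨z, hz, hzi⟩ := Finset.mem_image.1 h1
    exact ⟨z, by simpa using hz, hzi⟩
  choose y hy1 hy2 using hmem
  refine ⟨y, ⟨hy1, ?_⟩, ?_⟩
  · intro i j hij
    show φ (y i) < φ (y j)
    rw [hy2, hy2]
    exact (s.orderEmbOfFin hs).strictMono hij
  · intro y' h1 h2
    have h3 := Finset.orderEmbOfFin_unique hs (f := fun i => φ (y' i))
      (fun i => Finset.mem_image_of_mem _ (by simpa using h1 i)) h2
    funext i
    apply hφ
    rw [hy2]
    exact congrFun h3 i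

/-- the degree classes of a Borel graph of bounded degree are Borel -/
theorem meas_deg {X : Type} [MeasurableSpace X] [StandardBorelSpace X] (G : SimpleGraph X) (d : ℕ)
    (hG : MeasurableSet {p : X × X | G.Adj p.1 p.2})
    (hd : ∀ x : X, (G.neighborSet x).encard ≤ (d : ℕ∞)) :
    ∀ k ≤ d, MeasurableSet {x : X | (G.neighborSet x).encard = ((d - k : ℕ) : ℕ∞)} := by
  classical
  intro k
  induction k using Nat.strong_induction_on with
  | _ k ih =>
  intro hk
  let φ : X → ℝ := MeasureTheory.embeddingReal X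
  have hφ : MeasurableEmbedding φ := MeasureTheory.measurableEmbedding_embeddingReal X
  set m : ℕ := d - k with hm
  let D0 : Set (X × (Fin m → X)) := {p | (∀ i, G.Adj p.1 (p.2 i)) ∧
    StrictMono (fun i => φ (p.2 i))}
  have hD0 : MeasurableSet D0 := by
    have h1 : D0 = (⋂ i : Fin m, {p : X × (Fin m → X) | G.Adj p.1 (p.2 i)}) ∩
        ⋂ i : Fin m, ⋂ j : Fin m, ⋂ _ : i < j,
          {p : X × (Fin m → X) | φ (p.2 i) < φ (p.2 j)} := by
      ext p
      simp only [Set.mem_inter_iff, Set.mem_iInter, Set.mem_setOf_eq, D0]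
      constructor
      · rintro ⟨h1, h2⟩
        exact ⟨h1, fun i j hij => h2 hij⟩
      · rintro ⟨h1, h2⟩
        exact ⟨h1, fun i j hij => h2 i j hij⟩
    rw [h1]
    refine MeasurableSet.inter (MeasurableSet.iInter fun i => ?_)
      (MeasurableSet.iInter fun i => MeasurableSet.iInter fun j => MeasurableSet.iInter fun _ => ?_)
    · have h2 : Measurable fun p : X × (Fin m → X) => (p.1, p.2 i) :=
        measurable_fst.prodMk ((measurable_pi_apply i).comp measurable_snd)
      exact h2 hG
    · exact measurableSet_lt (hφ.measurable.comp ((measurable_pi_apply i).comp measurable_snd))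
        (hφ.measurable.comp ((measurable_pi_apply j).comp measurable_snd))
  let E : ℕ → Set X := fun j => {x : X | (G.neighborSet x).encard = ((d - j : ℕ) : ℕ∞)}
  let D : Set (X × (Fin m → X)) := D0 ∩ ⋂ j : ℕ, ⋂ _ : j < k, Prod.fst ⁻¹' (E j)ᶜ
  have hD : MeasurableSet D := by
    refine hD0.inter (MeasurableSet.iInter fun j => MeasurableSet.iInter fun hj => ?_)
    exact measurable_fst (ih j hj (by omega)).compl
  have hdeg : ∀ p ∈ D, (G.neighborSet p.1).encard = (m : ℕ∞) := by
    rintro ⟨x, y⟩ ⟨⟨h1, h2⟩, h3⟩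
    have hinj : Function.Injective y := by
      intro i j hij
      exact h2.injective (congrArg φ hij)
    have h4 : (m : ℕ∞) ≤ (G.neighborSet x).encard := by
      have h5 : Set.range y ⊆ G.neighborSet x := by
        rintro _ ⟨i, rfl⟩
        exact h1 i
      have h6 := Set.encard_le_encard h5
      have h7 : (Set.range y).encard = (m : ℕ∞) := by
        rw [← Set.image_univ, hinj.encard_image]
        simp
      rwa [h7] at h6
    have h5 := hd x
    obtain ⟨n, hn⟩ : ∃ n : ℕ, (G.neighborSet x).encard = (n : ℕ∞) := by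
      have := ne_top_of_le_ne_top (ENat.coe_ne_top d) h5
      exact ⟨_, (ENat.coe_toNat this).symm⟩
    rw [hn] at h4 h5
    have h6 : m ≤ n := by exact_mod_cast h4
    have h7 : n ≤ d := by exact_mod_cast h5
    rcases Nat.lt_or_ge m n with h8 | h8
    · exfalso
      have h9 : x ∉ E (d - n) := by
        have := Set.mem_iInter₂.1 h3 (d - n) (by omega)
        exact this
      apply h9
      show (G.neighborSet x).encard = _
      rw [hn]
      congr 1
      omega
    · show (G.neighborSet x).encard = _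
      rw [hn]
      congr 1
      omega
  have himg : {x : X | (G.neighborSet x).encard = (m : ℕ∞)} = Prod.fst '' D := by
    ext x
    constructor
    · intro hx
      obtain ⟨y, hy1, -⟩ := enum_at G m φ hφ.injective x hx
      refine ⟨(x, y), ⟨hy1, ?_⟩, rfl⟩
      refine Set.mem_iInter₂.2 fun j hj => ?_
      intro (h : (G.neighborSet x).encard = ((d - j : ℕ) : ℕ∞))
      have hx' : (G.neighborSet x).encard = (m : ℕ∞) := hx
      rw [hx'] at h
      have h2 : m = d - j := by exact_mod_cast h
      omega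
    · rintro ⟨p, hp, rfl⟩
      exact hdeg p hp
  rw [himg]
  refine hD.image_of_measurable_injOn measurable_fst ?_
  rintro ⟨a, b⟩ ha ⟨a', b'⟩ ha' (hab : a = a')
  subst hab
  obtain ⟨y, -, hy⟩ := enum_at G m φ hφ.injective a (hdeg _ ha)
  have h1 := hy b ha.1.1 ha.1.2
  have h2 := hy b' ha'.1.1 ha'.1.2
  rw [h1, h2]

/-- the relation used in the frozen statement -/
def rel {V : Type*} (G : SimpleGraph V) (r : ℕ) (U : Set V) : SimpleGraph V :=
  SimpleGraph.fromRel (fun a b : V => a ∈ U ∧ b ∈ U ∧ ∃ p : G.Walk a b, p.length ≤ r)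

theorem walk_pull {V W : Type*} (G : SimpleGraph V) (H : SimpleGraph W) (π : W → V)
    (hπ : ∀ a b, H.Adj a b → π a = π b ∨ G.Adj (π a) (π b)) {a b : W} (p : H.Walk a b) :
    ∃ q : G.Walk (π a) (π b), q.length ≤ p.length := by
  induction p with
  | nil => exact ⟨SimpleGraph.Walk.nil, le_rfl⟩
  | @cons u v w h p ih =>
    obtain ⟨q, hq⟩ := ih
    rcases hπ _ _ h with h1 | h1
    · refine ⟨q.copy h1.symm rfl, ?_⟩
      rw [SimpleGraph.Walk.length_copy, SimpleGraph.Walk.length_cons]
      omega
    · exact ⟨SimpleGraph.Walk.cons h1 q, by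
        rw [SimpleGraph.Walk.length_cons, SimpleGraph.Walk.length_cons]; omega⟩

/-- finiteness of the components pulls back along finite-to-one maps -/
theorem fin_pull {V W : Type*} (G : SimpleGraph V) (H : SimpleGraph W) (π : W → V)
    (hπ : ∀ a b, H.Adj a b → π a = π b ∨ G.Adj (π a) (π b))
    (hfin : ∀ x, (π ⁻¹' {x}).Finite) (r : ℕ) (U : Set V)
    (h : ∀ x, {y | (rel G r U).Reachable x y}.Finite) (x : W) :
    {y | (rel H r (π ⁻¹' U)).Reachable x y}.Finite := by
  refine ((h (π x)).biUnion fun z _ => hfin z).subset ?_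
  intro y hy
  have hy' : (rel H r (π ⁻¹' U)).Reachable x y := hy
  obtain ⟨p⟩ := hy'
  refine Set.mem_iUnion₂.2 ⟨π y, ?_, rfl⟩
  show (rel G r U).Reachable (π x) (π y)
  induction p with
  | nil => exact SimpleGraph.Reachable.refl _
  | @cons u v w hadj p ih =>
    refine SimpleGraph.Reachable.trans ?_ (ih ⟨p⟩)
    by_cases hne : π u = π v
    · rw [hne]
    · refine SimpleGraph.Adj.reachable ?_
      have h1 : (rel H r (π ⁻¹' U)).Adj u v := hadj
      unfold rel at h1 ⊢
      rw [SimpleGraph.fromRel_adj] at h1 ⊢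
      refine ⟨hne, ?_⟩
      rcases h1.2 with ⟨ha, hb, q, hq⟩ | ⟨ha, hb, q, hq⟩
      · left
        obtain ⟨q', hq'⟩ := walk_pull G H π hπ q
        exact ⟨ha, hb, q', hq'.trans hq⟩
      · right
        obtain ⟨q', hq'⟩ := walk_pull G H π hπ q
        exact ⟨ha, hb, q', hq'.trans hq⟩

end MP405I
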