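import Mathlib
import Pool.Agent.Lib.MP_405d56_lc.I.Deg

/-! # Regular extension of a Borel graph of bounded degree -/

set_option autoImplicit false

namespace MP405I

open Set MeasureTheory

/-- flip one coordinate -/
def flp {d : ℕ} (v : Fin d → Bool) (i : Fin d) : Fin d → Bool := Function.update v i (!(v i))

theorem flp_flp {d : ℕ} (v : Fin d → Bool) (i : Fin d) : flp (flp v i) i = v := by
  unfold flp
  simp

theorem flp_ne {d : ℕ} (v : Fin d → Bool) (i : Fin d) : flp v i ≠ v := by
  intro h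
  have h1 := congrFun h i
  unfold flp at h1
  simp at h1

theorem flp_inj {d : ℕ} (v : Fin d → Bool) : Function.Injective (flp v) := by
  intro i j h
  by_contra hne
  have h1 := congrFun h i
  unfold flp at h1
  rw [Function.update_self, Function.update_of_ne hne] at h1
  simp at h1

/-- the degree -/
noncomputable def dg {X : Type*} (G : SimpleGraph X) (x : X) : ℕ := (G.neighborSet x).ncard

/-- the extension to copies indexed by the cube, adding cube edges up to degree `d` -/
def cub {X : Type*} (G : SimpleGraph X) (d : ℕ) : SimpleGraph (X × (Fin d → Bool)) where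
  Adj a b := (G.Adj a.1 b.1 ∧ a.2 = b.2) ∨
    (a.1 = b.1 ∧ ∃ i : Fin d, i.val + dg G a.1 < d ∧ b.2 = flp a.2 i)
  symm := ⟨by
    rintro a b (⟨h1, h2⟩ | ⟨h1, i, h2, h3⟩)
    · exact Or.inl ⟨h1.symm, h2.symm⟩
    · refine Or.inr ⟨h1.symm, i, by rw [← h1]; exact h2, ?_⟩
      rw [h3, flp_flp]⟩
  loopless := ⟨by
    rintro a (⟨h1, h2⟩ | ⟨h1, i, h2, h3⟩)
    · exact G.loopless.irrefl _ h1
    · exact flp_ne _ _ h3.symm⟩

theorem cub_deg {X : Type*} (G : SimpleGraph X) (d : ℕ)
    (hd : ∀ x : X, (G.neighborSet x).encard ≤ (d : ℕ∞)) (a : X × (Fin d → Bool)) :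
    ((cub G d).neighborSet a).encard = (d : ℕ∞) := by
  classical
  have hfin : (G.neighborSet a.1).Finite :=
    Set.finite_of_encard_le_coe (hd a.1)
  have hdg : (G.neighborSet a.1).encard = (dg G a.1 : ℕ∞) := hfin.cast_ncard_eq.symm
  have hle : dg G a.1 ≤ d := by
    have := hd a.1
    rw [hdg] at this
    exact_mod_cast this
  have h1 : (cub G d).neighborSet a = (fun z => (z, a.2)) '' (G.neighborSet a.1) ∪
      (fun i => (a.1, flp a.2 i)) '' {i : Fin d | i.val + dg G a.1 < d} := by
    ext b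
    constructor
    · rintro (⟨h1, h2⟩ | ⟨h1, i, h2, h3⟩)
      · exact Or.inl ⟨b.1, h1, by rw [h2]⟩
      · exact Or.inr ⟨i, h2, by
          show (a.1, flp a.2 i) = b
          rw [← h3, h1]⟩
    · rintro (⟨z, hz, rfl⟩ | ⟨i, hi, rfl⟩)
      · exact Or.inl ⟨hz, rfl⟩
      · exact Or.inr ⟨rfl, i, hi, rfl⟩
  have hdis : Disjoint ((fun z => (z, a.2)) '' (G.neighborSet a.1))
      ((fun i => (a.1, flp a.2 i)) '' {i : Fin d | i.val + dg G a.1 < d}) := by
    rw [Set.disjoint_left]
    rintro b ⟨z, hz, rfl⟩ ⟨i, hi, h⟩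
    have h2 : a.1 = z := congrArg Prod.fst h
    rw [← h2] at hz
    exact G.loopless.irrefl _ hz
  have hi1 : Function.Injective (fun z : X => (z, a.2)) := fun x y h => congrArg Prod.fst h
  have hi2 : Function.Injective (fun i : Fin d => (a.1, flp a.2 i)) :=
    fun x y h => flp_inj a.2 (congrArg Prod.snd h)
  have hc : {i : Fin d | i.val + dg G a.1 < d}.encard = ((d - dg G a.1 : ℕ) : ℕ∞) := by
    rw [Set.encard_eq_coe_toFinset_card]
    have : ({i : Fin d | i.val + dg G a.1 < d} : Set (Fin d)).toFinset.card = d - dg G a.1 := by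
      have h2 : ({i : Fin d | i.val + dg G a.1 < d} : Set (Fin d)).toFinset =
          (Finset.univ.filter fun i : Fin d => i.val < d - dg G a.1) := by
        ext i
        simp only [Set.mem_toFinset, Set.mem_ofPred_eq, Finset.mem_filter, Finset.mem_univ,
          true_and]
        omega
      rw [h2, Fin.card_filter_val_lt]
      omega
    rw [this]
  rw [h1, Set.encard_union_eq hdis, hi1.encard_image, hi2.encard_image, hdg, hc]
  have : dg G a.1 + (d - dg G a.1) = d := by omega
  exact_mod_cast this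

theorem cub_meas {X : Type} [MeasurableSpace X] [StandardBorelSpace X] (G : SimpleGraph X) (d : ℕ)
    (hG : MeasurableSet {p : X × X | G.Adj p.1 p.2})
    (hd : ∀ x : X, (G.neighborSet x).encard ≤ (d : ℕ∞)) :
    MeasurableSet {p : (X × (Fin d → Bool)) × (X × (Fin d → Bool)) | (cub G d).Adj p.1 p.2} := by
  classical
  have hM : ∀ i : Fin d, MeasurableSet {x : X | i.val + dg G x < d} := by
    intro i
    have h1 : {x : X | i.val + dg G x < d} = ⋃ k : ℕ, ⋃ _ : k ≤ d ∧ i.val < k,
        {x : X | (G.neighborSet x).encard = ((d - k : ℕ) : ℕ∞)} := by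
      ext x
      have hfin : (G.neighborSet x).Finite := Set.finite_of_encard_le_coe (hd x)
      have hdg : (G.neighborSet x).encard = (dg G x : ℕ∞) := hfin.cast_ncard_eq.symm
      have hle : dg G x ≤ d := by
        have := hd x
        rw [hdg] at this
        exact_mod_cast this
      simp only [Set.mem_iUnion, Set.mem_ofPred_eq, exists_prop]
      constructor
      · intro h
        refine ⟨d - dg G x, ⟨by omega, by omega⟩, ?_⟩
        rw [hdg]
        congr 1
        omega
      · rintro ⟨k, ⟨hk1, hk2⟩, h⟩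
        rw [hdg] at h
        have h2 : dg G x = d - k := by exact_mod_cast h
        omega
    rw [h1]
    exact MeasurableSet.iUnion fun k => MeasurableSet.iUnion fun hk => meas_deg G d hG hd k hk.1
  have h1 : {p : (X × (Fin d → Bool)) × (X × (Fin d → Bool)) | (cub G d).Adj p.1 p.2} =
      ({p | G.Adj p.1.1 p.2.1} ∩ {p | p.1.2 = p.2.2}) ∪
      ⋃ i : Fin d, ({p | p.1.1 = p.2.1} ∩ {p | p.2.2 = flp p.1.2 i} ∩
        {p | i.val + dg G p.1.1 < d}) := by
    ext p
    constructor
    · rintro (⟨h1, h2⟩ | ⟨h1, i, h2, h3⟩)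
      · exact Or.inl ⟨h1, h2⟩
      · exact Or.inr (Set.mem_iUnion.2 ⟨i, ⟨h1, h3⟩, h2⟩)
    · rintro (⟨h1, h2⟩ | h)
      · exact Or.inl ⟨h1, h2⟩
      · obtain ⟨i, ⟨h1, h3⟩, h2⟩ := Set.mem_iUnion.1 h
        exact Or.inr ⟨h1, i, h2, h3⟩
  rw [h1]
  have m11 : Measurable fun p : (X × (Fin d → Bool)) × (X × (Fin d → Bool)) => p.1.1 :=
    measurable_fst.comp measurable_fst
  have m12 : Measurable fun p : (X × (Fin d → Bool)) × (X × (Fin d → Bool)) => p.1.2 :=
    measurable_snd.comp measurable_fst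
  have m21 : Measurable fun p : (X × (Fin d → Bool)) × (X × (Fin d → Bool)) => p.2.1 :=
    measurable_fst.comp measurable_snd
  have m22 : Measurable fun p : (X × (Fin d → Bool)) × (X × (Fin d → Bool)) => p.2.2 :=
    measurable_snd.comp measurable_snd
  refine MeasurableSet.union (MeasurableSet.inter ?_ (measurableSet_eq_fun m12 m22))
    (MeasurableSet.iUnion fun i => MeasurableSet.inter (MeasurableSet.inter
      (measurableSet_eq_fun m11 m21) (measurableSet_eq_fun m22 ?_)) ?_)
  · exact (m11.prodMk m21) hG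
  · exact (measurable_of_countable (fun v : Fin d → Bool => flp v i)).comp m12
  · exact m11 (hM i)

theorem cub_proj {X Y : Type*} (G : SimpleGraph X) (e : Y → X) (d : ℕ)
    (a b : Y × (Fin d → Bool)) (h : (cub (G.comap e) d).Adj a b) :
    e a.1 = e b.1 ∨ G.Adj (e a.1) (e b.1) := by
  rcases h with ⟨h1, -⟩ | ⟨h1, -⟩
  · exact Or.inr h1
  · exact Or.inl (congrArg e h1)

/-- Borel Vizing for bounded degree, all universes, in terms of `rel` -/
theorem bounded {X : Type*} [MeasurableSpace X] [StandardBorelSpace X] (G : SimpleGraph X) (d : ℕ)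
    (hG : MeasurableSet {p : X × X | G.Adj p.1 p.2})
    (hd : ∀ x : X, (G.neighborSet x).encard ≤ (d : ℕ∞))
    (hasi : ∀ r : ℕ, ∃ U : Fin 2 → Set X, (∀ i, MeasurableSet (U i)) ∧ (⋃ i, U i) = Set.univ ∧
        ∀ (i : Fin 2) (x : X), {y : X | (rel G r (U i)).Reachable x y}.Finite) :
    ∃ c : X × X → ℕ, Measurable c ∧
      (∀ x y : X, G.Adj x y → c (x, y) < d + 1 ∧ c (x, y) = c (y, x)) ∧
      ∀ x y z : X, G.Adj x y → G.Adj x z → y ≠ z → c (x, y) ≠ c (x, z) := by
  classical
  have hφ : MeasurableEmbedding (MeasureTheory.embeddingReal X) :=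
    MeasureTheory.measurableEmbedding_embeddingReal X
  let Y : Type := ↥(Set.range (MeasureTheory.embeddingReal X))
  haveI : StandardBorelSpace Y := hφ.measurableSet_range.standardBorel
  let e : Y ≃ᵐ X := hφ.equivRange.symm
  let H : SimpleGraph Y := G.comap e
  have hH : MeasurableSet {p : Y × Y | H.Adj p.1 p.2} :=
    (e.measurable.comp measurable_fst |>.prodMk (e.measurable.comp measurable_snd)) hG
  have hHd : ∀ y : Y, (H.neighborSet y).encard ≤ (d : ℕ∞) := by
    intro y
    refine le_trans ?_ (hd (e y))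
    have h1 : e '' (H.neighborSet y) ⊆ G.neighborSet (e y) := by
      rintro _ ⟨z, hz, rfl⟩
      exact hz
    have h2 := Set.encard_le_encard h1
    rwa [e.injective.encard_image] at h2
  let Z : Type := Y × (Fin d → Bool)
  let K : SimpleGraph Z := cub H d
  let π : Z → X := fun a => e a.1
  have hπm : Measurable π := e.measurable.comp measurable_fst
  have hfin : ∀ x, (π ⁻¹' {x}).Finite := by
    intro x
    refine ((Set.finite_singleton (e.symm x)).prod (Set.finite_univ (α := Fin d → Bool))).subset ?_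
    rintro ⟨a, v⟩ (h : e a = x)
    refine ⟨?_, Set.mem_univ _⟩
    show a = e.symm x
    rw [← h, MeasurableEquiv.symm_apply_apply]
  have hasi' : ∀ r : ℕ, ∃ U : Fin 2 → Set Z, (∀ i, MeasurableSet (U i)) ∧
      (⋃ i, U i) = Set.univ ∧
        ∀ (i : Fin 2) (x : Z), {y : Z | (rel K r (U i)).Reachable x y}.Finite := by
    intro r
    obtain ⟨U, hU1, hU2, hU3⟩ := hasi r
    refine ⟨fun i => π ⁻¹' (U i), fun i => hπm (hU1 i), ?_, fun i x => ?_⟩
    · rw [← Set.preimage_iUnion, hU2, Set.preimage_univ]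
    · exact fin_pull G K π (fun a b h => cub_proj G e d a b h) hfin r (U i) (hU3 i) x
  obtain ⟨c, hc1, hc2, hc3⟩ := MP405B.final_of Pool.MP405d56.finExt Z K d (cub_meas H d hH hHd)
    (cub_deg H d hHd) hasi'
  let v0 : Fin d → Bool := fun _ => false
  let s : X → Z := fun x => (e.symm x, v0)
  have hs : Measurable s := e.symm.measurable.prodMk measurable_const
  have hadj : ∀ x y, G.Adj x y → K.Adj (s x) (s y) := by
    intro x y h
    refine Or.inl ⟨?_, rfl⟩
    show G.Adj (e (e.symm x)) (e (e.symm y))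
    rw [MeasurableEquiv.apply_symm_apply, MeasurableEquiv.apply_symm_apply]
    exact h
  refine ⟨fun p => c (s p.1, s p.2), hc1.comp ((hs.comp measurable_fst).prodMk
    (hs.comp measurable_snd)), fun x y h => hc2 _ _ (hadj x y h), fun x y z h1 h2 hne => ?_⟩
  refine hc3 _ _ _ (hadj x y h1) (hadj x z h2) ?_
  intro h
  exact hne (e.symm.injective (congrArg Prod.fst h))

end MP405I
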